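import Mathlib
import Pool.Agent.Q36.PB.Drp

/-!
# Job MIN: a bihomogeneous element of least degree
-/

set_option autoImplicit false

open MvPolynomial Filter Topology

namespace Pool.Agent.Q26.PB

open Q36.PB

attribute [local instance] MvPolynomial.weightedGradedAlgebra

theorem mem_of_comp {N : ℕ} {I : Ideal (A N)} {p : A N}
    (h : ∀ e : ℕ × ℕ, weightedHomogeneousComponent (wt N) e p ∈ I) : p ∈ I := by
  classical
  have h1 := DirectSum.sum_support_decompose (weightedHomogeneousSubmodule ℂ (wt N)) p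
  rw [← h1]
  refine sum_mem (fun e _ => ?_)
  rw [decompose_eq]
  exact h e

theorem comp_prod {N : ℕ} (I : Ideal (A N)) (x y : A N) (l m : ℕ × ℕ)
    (hx : ∀ i : ℕ × ℕ, i.1 < l.1 ∨ (i.1 = l.1 ∧ i.2 < l.2) → weightedHomogeneousComponent (wt N) i x ∈ I)
    (hy : ∀ i : ℕ × ℕ, i.1 < m.1 ∨ (i.1 = m.1 ∧ i.2 < m.2) → weightedHomogeneousComponent (wt N) i y ∈ I) :
    weightedHomogeneousComponent (wt N) (l + m) (x * y) -
      weightedHomogeneousComponent (wt N) l x * weightedHomogeneousComponent (wt N) m y ∈ I := by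
  classical
  have h1 := DirectSum.coe_mul_apply (weightedHomogeneousSubmodule ℂ (wt N))
    (DirectSum.decompose (weightedHomogeneousSubmodule ℂ (wt N)) x)
    (DirectSum.decompose (weightedHomogeneousSubmodule ℂ (wt N)) y) (l + m)
  rw [← DirectSum.decompose_mul, decompose_eq] at h1
  rw [h1, ← decompose_eq x l, ← decompose_eq y m]
  set S := ((DirectSum.decompose (weightedHomogeneousSubmodule ℂ (wt N)) x).support ×ˢ
    (DirectSum.decompose (weightedHomogeneousSubmodule ℂ (wt N)) y).support).filter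
      (fun ij => ij.1 + ij.2 = l + m) with hS
  have key : ∀ ij ∈ S.erase (l, m), ((DirectSum.decompose (weightedHomogeneousSubmodule ℂ (wt N)) x ij.1 : A N) *
      (DirectSum.decompose (weightedHomogeneousSubmodule ℂ (wt N)) y ij.2 : A N)) ∈ I := by
    intro ij hij
    rw [Finset.mem_erase, hS, Finset.mem_filter] at hij
    obtain ⟨hne, -, hsum⟩ := hij
    obtain ⟨i, j⟩ := ij
    rw [decompose_eq, decompose_eq]
    have e1 := congrArg Prod.fst hsum
    have e2 := congrArg Prod.snd hsum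
    simp only [Prod.fst_add, Prod.snd_add] at e1 e2
    have h3 : (i.1 < l.1 ∨ (i.1 = l.1 ∧ i.2 < l.2)) ∨ (j.1 < m.1 ∨ (j.1 = m.1 ∧ j.2 < m.2)) := by
      by_contra hcon
      apply hne
      have : i = l := Prod.ext (by omega) (by omega)
      have : j = m := Prod.ext (by omega) (by omega)
      simp_all
    rcases h3 with h3 | h3
    · exact I.mul_mem_right _ (hx i h3)
    · exact I.mul_mem_left _ (hy j h3)
  by_cases hmem : (l, m) ∈ S
  · rw [← Finset.add_sum_erase S _ hmem]
    have := sum_mem key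
    simpa using this
  · have h0 : ((DirectSum.decompose (weightedHomogeneousSubmodule ℂ (wt N)) x l : A N) *
      (DirectSum.decompose (weightedHomogeneousSubmodule ℂ (wt N)) y m : A N)) = 0 := by
      by_contra h0
      apply hmem
      rw [hS, Finset.mem_filter, Finset.mem_product, DFinsupp.mem_support_iff, DFinsupp.mem_support_iff]
      refine ⟨⟨fun h => ?_, fun h => ?_⟩, rfl⟩
      · apply h0; rw [h]; simp
      · apply h0; rw [h]; simp
    rw [h0, sub_zero]
    rw [Finset.erase_eq_of_notMem hmem] at key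
    exact sum_mem key

/-- the lexicographically least component which is not in `I` -/
theorem exists_low {N : ℕ} {I : Ideal (A N)} {x : A N} (hx : x ∉ I) : ∃ l : ℕ × ℕ,
    weightedHomogeneousComponent (wt N) l x ∉ I ∧
    ∀ i : ℕ × ℕ, i.1 < l.1 ∨ (i.1 = l.1 ∧ i.2 < l.2) → weightedHomogeneousComponent (wt N) i x ∈ I := by
  classical
  have h1 : ∃ a, ∃ b, weightedHomogeneousComponent (wt N) (a, b) x ∉ I := by
    by_contra hcon
    push Not at hcon
    exact hx (mem_of_comp fun e => hcon e.1 e.2)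
  have h2 := Nat.find_spec h1
  refine ⟨(Nat.find h1, Nat.find h2), Nat.find_spec h2, ?_⟩
  rintro ⟨i, j⟩ h3
  by_contra h4
  rcases h3 with h3 | ⟨h3, h5⟩
  · exact Nat.find_min h1 h3 ⟨j, h4⟩
  · simp only at h3 h5
    subst h3
    exact Nat.find_min h2 h5 h4

theorem q_mem : q ∈ bi 3 2 1 := by
  unfold q
  refine sum_mem (fun i _ => ?_)
  have h1 : (X (Sum.inl i) : A 3) ∈ bi 3 1 0 := isWeightedHomogeneous_X ℂ _ _
  have h2 : (X (Sum.inr i) : A 3) ∈ bi 3 0 1 := isWeightedHomogeneous_X ℂ _ _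
  have h3 := mul_mem_bi (mul_mem_bi h1 h1) h2
  rw [← pow_two] at h3
  exact h3

theorem zero_comp {a : A 3} (ha : a ∈ bi 3 0 0) : a = C (coeff 0 a) := by
  rw [bi_eq] at ha
  ext m
  rw [coeff_C]
  split_ifs with h
  · rw [h]
  · by_contra h1
    apply h
    have h2 : m ∈ a.support := mem_support_iff.2 h1
    have h3 : m ∈ Ex 3 0 0 := ((mem_restrictSupport_iff ℂ).1 ha) h2
    obtain ⟨h4, h5⟩ := h3
    rw [Finset.sum_eq_zero_iff] at h4 h5
    symm
    ext i
    rcases i with i | i
    · exact h4 i (Finset.mem_univ i)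
    · exact h5 i (Finset.mem_univ i)

theorem min_g (h1 : S_QPR) (h2 : S_FIN) : S_MIN := by
  classical
  intro P hP hPh hqP hPq
  obtain ⟨hqp, hufd, -⟩ := h1
  obtain ⟨-, -, hspan, -⟩ := h2
  obtain ⟨I, hI⟩ : ∃ I : Ideal (A 3), I = Ideal.span {q} := ⟨_, rfl⟩
  have hIh : BiHom I := by
    rw [hI]
    exact hspan 3 _ (by rintro g rfl; exact ⟨2, 1, q_mem⟩)
  have hIP : I ≤ P := by
    rw [hI, Ideal.span_singleton_le_iff_mem]
    exact hqP
  rw [← hI] at hqp hPq hufd ⊢
  have hex : ∃ n, ∃ (c d : ℕ) (g : A 3), c + d = n ∧ g ∈ bi 3 c d ∧ g ∈ P ∧ g ∉ I := by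
    obtain ⟨p, hp, hpI⟩ : ∃ p ∈ P, p ∉ I := by
      by_contra hcon
      push Not at hcon
      exact hPq (le_antisymm hcon hIP)
    obtain ⟨e, he, -⟩ := exists_low hpI
    exact ⟨_, e.1, e.2, _, rfl, weightedHomogeneousComponent_mem _ _ _, hPh p hp e, he⟩
  obtain ⟨c, d, g, hcd, hgb, hgP, hgI⟩ := Nat.find_spec hex
  have hmin : ∀ (c' d' : ℕ) (g' : A 3), g' ∈ bi 3 c' d' → g' ∈ P → g' ∉ I → c + d ≤ c' + d' := by
    intro c' d' g' k1 k2 k3
    rw [hcd]
    exact Nat.find_min' hex ⟨c', d', g', rfl, k1, k2, k3⟩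
  refine ⟨c, d, g, hgb, hgP, hgI, ?_⟩
  -- a prime factor
  have hsurj : Function.Surjective (Ideal.Quotient.mk I) := Ideal.Quotient.mk_surjective
  have hker : RingHom.ker (Ideal.Quotient.mk I) ≤ P := by rw [Ideal.mk_ker]; exact hIP
  have hJ : (P.map (Ideal.Quotient.mk I)).IsPrime := Ideal.map_isPrime_of_surjective hsurj hker
  have hg0 : Ideal.Quotient.mk I g ≠ 0 := fun h => hgI (Ideal.Quotient.eq_zero_iff_mem.1 h)
  obtain ⟨f, hf1, hf2⟩ := UniqueFactorizationMonoid.exists_prime_factors _ hg0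
  have hfJ : f.prod ∈ P.map (Ideal.Quotient.mk I) :=
    Ideal.mem_of_dvd _ hf2.symm.dvd (Ideal.mem_map_of_mem _ hgP)
  obtain ⟨pb, hpbf, hpbJ⟩ := (hJ.multiset_prod_mem_iff_exists_mem f).1 hfJ
  have hpbp := hf1 pb hpbf
  obtain ⟨π, hπP, hπ⟩ := (Ideal.mem_map_iff_of_surjective _ hsurj).1 hpbJ
  obtain ⟨ab, hab⟩ : pb ∣ Ideal.Quotient.mk I g := (Multiset.dvd_prod hpbf).trans hf2.dvd
  obtain ⟨a, ha⟩ := hsurj ab
  have hga : g - π * a ∈ I := by
    rw [← Ideal.Quotient.eq, map_mul, hπ, ha, hab]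
  have hπI : π ∉ I := by
    intro h
    rw [Ideal.Quotient.eq_zero_iff_mem.2 h] at hπ
    exact hpbp.ne_zero hπ.symm
  have haI : a ∉ I := by
    intro h
    rw [Ideal.Quotient.eq_zero_iff_mem.2 h] at ha
    rw [← ha, mul_zero] at hab
    exact hg0 hab
  obtain ⟨l, hl1, hl2⟩ := exists_low hπI
  obtain ⟨m, hm1, hm2⟩ := exists_low haI
  have hprod := comp_prod I π a l m hl2 hm2
  have hnot : weightedHomogeneousComponent (wt 3) (l + m) (π * a) ∉ I := by
    intro h
    have h3 : weightedHomogeneousComponent (wt 3) l π * weightedHomogeneousComponent (wt 3) m a ∈ I := by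
      have := I.sub_mem h hprod
      simpa using this
    rcases hqp.mem_or_mem h3 with h4 | h4
    · exact hl1 h4
    · exact hm1 h4
  have hgl : weightedHomogeneousComponent (wt 3) (l + m) g ∉ I := by
    intro h
    apply hnot
    have h3 := hIh _ hga (l + m)
    rw [map_sub] at h3
    have := I.sub_mem h h3
    simpa using this
  have hlm : l + m = (c, d) := by
    by_contra hne
    apply hgl
    have : weightedHomogeneousComponent (wt 3) (l + m) g = 0 :=
      IsWeightedHomogeneous.weightedHomogeneousComponent_ne (l + m) hgb hne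
    rw [this]
    exact I.zero_mem
  have hlge := hmin l.1 l.2 _ (weightedHomogeneousComponent_mem _ _ _) (hPh π hπP l) hl1
  have e1 := congrArg Prod.fst hlm
  have e2 := congrArg Prod.snd hlm
  simp only [Prod.fst_add, Prod.snd_add] at e1 e2
  have hm0 : m = (0, 0) := Prod.ext (by show m.1 = 0; omega) (by show m.2 = 0; omega)
  rw [hm0] at hm1
  obtain ⟨r, hr⟩ : ∃ r : ℂ, weightedHomogeneousComponent (wt 3) (0, 0) a = C r :=
    ⟨_, zero_comp (weightedHomogeneousComponent_mem _ _ _)⟩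
  have hr0 : r ≠ 0 := by
    rintro rfl
    rw [hr, map_zero] at hm1
    exact hm1 I.zero_mem
  have hIg : I ≤ Ideal.span {q, g} := by
    rw [hI]
    exact Ideal.span_mono (by simp)
  have hgg : Ideal.span {g} ≤ (Ideal.span {q, g} : Ideal (A 3)) := Ideal.span_mono (by simp)
  -- (2)
  have key2 : ∀ (c' d' : ℕ) (f : A 3), f ∈ bi 3 c' d' → pb ∣ Ideal.Quotient.mk I f → f ∈ Ideal.span {q, g} := by
    intro c' d' f hf hdvd
    obtain ⟨bb, hbb⟩ := hdvd
    obtain ⟨b, hb⟩ := hsurj bb
    have k1 : f * a - g * b ∈ I := by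
      rw [← Ideal.Quotient.eq, map_mul, map_mul, hbb, hab, ha, hb]
      ring
    have k2 := hIh _ k1 (0 + c', 0 + d')
    rw [map_sub, comp_mul hf a, hr] at k2
    have k3 : weightedHomogeneousComponent (wt 3) (0 + c', 0 + d') (g * b) ∈ (Ideal.span {g} : Ideal (A 3)) :=
      hspan 3 {g} (by rintro x rfl; exact ⟨c, d, hgb⟩) (g * b)
        (Ideal.mul_mem_right _ _ (Ideal.mem_span_singleton_self g)) _
    have k4 : f * C r ∈ Ideal.span {q, g} := by
      have := Ideal.add_mem _ (hIg k2) (hgg k3)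
      simpa using this
    have k5 : f = C r⁻¹ * (f * C r) := by
      rw [mul_comm f, ← mul_assoc, ← C_mul, inv_mul_cancel₀ hr0, C_1, one_mul]
    rw [k5]
    exact Ideal.mul_mem_left _ _ k4
  by_cases hPe : P = Ideal.span {q, g}
  · exact Or.inl hPe
  · right
    have hle : Ideal.span {q, g} ≤ P := by
      rw [Ideal.span_le]
      rintro x (rfl | rfl)
      · exact hqP
      · exact hgP
    obtain ⟨p, hp, hpn⟩ : ∃ p ∈ P, p ∉ Ideal.span {q, g} := by
      by_contra hcon
      push Not at hcon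
      exact hPe (le_antisymm hcon hle)
    obtain ⟨e, he, -⟩ := exists_low hpn
    refine ⟨e.1, e.2, _, weightedHomogeneousComponent_mem _ _ _, hPh p hp e, ?_⟩
    intro a' b' h hh hfh
    have k1 : pb ∣ Ideal.Quotient.mk I (weightedHomogeneousComponent (wt 3) e p) * Ideal.Quotient.mk I h := by
      rw [← map_mul]
      obtain ⟨u, v, huv⟩ := Ideal.mem_span_pair.1 hfh
      rw [← huv, map_add, map_mul, map_mul]
      have : Ideal.Quotient.mk I q = 0 := by
        rw [Ideal.Quotient.eq_zero_iff_mem, hI]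
        exact Ideal.mem_span_singleton_self q
      rw [this, mul_zero, zero_add, hab]
      exact ⟨Ideal.Quotient.mk I v * ab, by ring⟩
    rcases hpbp.dvd_or_dvd k1 with k2 | k2
    · exact absurd (key2 e.1 e.2 _ (weightedHomogeneousComponent_mem _ _ _) k2) he
    · exact key2 a' b' h hh k2

end Pool.Agent.Q26.PB
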